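import Pool.Agent.KS6_80.TF.Core

set_option autoImplicit false

/-! # From rational functions to the poles of the zeta function and of the Poincare series -/

namespace Pool.Agent.KS6_80.TF

open MeasureTheory MvPolynomial
open Pool.Agent.W427.SMC Pool.Agent.Y230.PT Pool.Agent.Y230.PS Pool.Agent.Y230.TH
open scoped ENNReal

attribute [local instance] msZ bsZ

variable {p : ℕ} [Fact p.Prime]

theorem core_of {V : Type} [Fintype V] (F : MvPolynomial V ℚ)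
    (h2 : FR p (mR p (hyp F)) (FF ((hyp F).toP p))) :
    ∃ D P : Polynomial ℂ, D ≠ 0 ∧ (∀ s : ℝ, 0 ≤ s →
      D.eval ((tr' p s : ℝ) : ℂ) * ((∫⁻ x : V → ℤ_[p], N p s (eval₂ (algebraMap ℚ ℚ_[p])
        (fun i => inc p (x i)) F) ∂(Measure.pi fun _ : V => mu p)).toReal : ℂ) =
          P.eval ((tr' p s : ℝ) : ℂ)) ∧
      ∀ T0, T0 ≠ 0 → (D.rootMultiplicity T0 : ℕ∞) ≤ Pool.Agent.Y230.PS.tr (mR p (hyp F)) T0 := by
  obtain ⟨D, P, hD, h3, h4⟩ := h2.rat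
  refine ⟨D, P, hD, fun s hs => ?_, h4⟩
  rw [← FF_hyp]
  exact h3 s hs

theorem core_of_Z {V : Type} [Fintype V] (F : MvPolynomial V ℤ)
    (h2 : FR p (mR p (hyp (map (Int.castRingHom ℚ) F)))
      (FF ((hyp (map (Int.castRingHom ℚ) F)).toP p))) :
    ∃ D P : Polynomial ℂ, D ≠ 0 ∧ (∀ s : ℝ, 0 ≤ s →
      D.eval ((tr' p s : ℝ) : ℂ) * ((∫⁻ x : V → ℤ_[p], tau p s (aeval x F)
        ∂(Measure.pi fun _ : V => mu p)).toReal : ℂ) = P.eval ((tr' p s : ℝ) : ℂ)) ∧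
      ∀ T0, T0 ≠ 0 → (D.rootMultiplicity T0 : ℕ∞) ≤
        Pool.Agent.Y230.PS.tr (mR p (hyp (map (Int.castRingHom ℚ) F))) T0 := by
  obtain ⟨D, P, hD, h2, h3⟩ := core_of (p := p) _ h2
  refine ⟨D, P, hD, fun s hs => ?_, h3⟩
  rw [← h2 s hs]
  simp only [tau_N]

/-- **The real parts of the poles of the zeta function are roots.** -/
theorem mero_of {V : Type} [Fintype V] (F : MvPolynomial V ℚ)
    (hF : FR p (mR p (hyp F)) (FF ((hyp F).toP p))) (b : Polynomial ℂ)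
    (hb : Pool.Agent.H628R4.TP.IsBFunction (map (algebraMap ℚ ℂ) F) b)
    (Z : ℂ → ℂ) (hZ : MeromorphicOn Z Set.univ)
    (hZp : ∀ s : ℂ, 0 < s.re → Z s = zetaQ p F s) (s₀ : ℂ) (hs : meromorphicOrderAt Z s₀ < 0) :
    b.eval (s₀.re : ℂ) = 0 := by
  obtain ⟨D, P, hD0, h1, h2⟩ := core_of (p := p) F hF
  have h3 := mero_bound p D P hD0 Z hZ (fun s hs => by
    rw [pw_real, hZp s (by simpa using hs), zetaQ_eq, h1 s hs.le]) s₀
  have h5 : rr p (pw p s₀) = s₀.re := pw_norm p s₀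
  rw [← h5]
  refine root_of_tr F b hb _ (D.rootMultiplicity (pw p s₀)) (fun h0 => ?_)
    (h2 _ (pw_ne_zero p s₀))
  rw [h0] at h3
  exact absurd (lt_of_le_of_lt h3 hs) (by simp)

/-- **The Poincare series.** -/
theorem poin_of {V : Type} [Fintype V] (F : MvPolynomial V ℤ)
    (hF : FR p (mR p (hyp (map (Int.castRingHom ℚ) F)))
      (FF ((hyp (map (Int.castRingHom ℚ) F)).toP p)))
    (b : Polynomial ℂ) (hb : Pool.Agent.H628R4.TP.IsBFunction (map (Int.castRingHom ℂ) F) b) :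
    ∃ Φ : RatFunc ℂ, ((Φ.denom : Polynomial ℂ) : PowerSeries ℂ) * poincare p F =
        ((Φ.num : Polynomial ℂ) : PowerSeries ℂ) ∧
      ∀ T₀ : ℂ, Φ.denom.eval T₀ = 0 → b.eval ((-Real.log ‖T₀‖ / Real.log p : ℝ) : ℂ) = 0 := by
  obtain ⟨D, P, hD0, h1, h2⟩ := core_of_Z (p := p) F hF
  obtain ⟨Φ, h3, h4, h5⟩ := poincare_of p _ D P hD0 h1
  refine ⟨Φ, h3, fun T hT0 => ?_⟩
  have hd : Φ.denom ≠ 0 := Φ.denom_ne_zero
  have h6 : Φ.denom.rootMultiplicity T ≠ 0 := by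
    rw [Ne, Polynomial.rootMultiplicity_eq_zero_iff]
    intro h
    exact hd (h hT0)
  have hT : T ≠ 0 := by
    rintro rfl
    exact h6 h4
  refine root_of_tr (map (Int.castRingHom ℚ) F) b ?_ T (D.rootMultiplicity T) (fun h0 => ?_)
    (h2 T hT)
  · rw [map_map]
    exact hb
  · have := h5 T
    omega

end Pool.Agent.KS6_80.TF
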