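import Pool.Graph.R_pool_sql_team_seeded_3997aac3.Q57.QP.Fin
import Pool.Graph.R_seed8.Y465.TH.R

set_option autoImplicit false

/-! # Zeta functions of forms in three variables, every prime -/

namespace Pool.Agent.KS6_80.TF

open MeasureTheory MvPolynomial
open Pool.Agent.W427.SMC Pool.Agent.Y230.PT Pool.Agent.Y230.PS Pool.Agent.Y230.TH
open Pool.Agent.W574.RO (Forced)
open Pool.Agent.W574.CN Pool.Agent.W574.SM

theorem eval_smul_hom {K : Type} [Field K] {σ : Type} {d : ℕ} (f : MvPolynomial σ K)
    (hf : f.IsHomogeneous d) (c : K) (x : σ → K) :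
    eval (fun k => c * x k) f = c ^ d * eval x f := by
  classical
  rw [eval_eq, eval_eq, Finset.mul_sum]
  refine Finset.sum_congr rfl fun m hm => ?_
  have h1 : ∑ i ∈ m.support, m i = d := by
    have := hf (mem_support_iff.1 hm)
    rw [← this, Finsupp.weight_apply, Finsupp.sum]
    exact Finset.sum_congr rfl fun i _ => by simp
  have h2 : ∏ i ∈ m.support, (c * x i) ^ m i = c ^ d * ∏ i ∈ m.support, x i ^ m i := by
    rw [← h1, ← Finset.prod_pow_eq_pow_sum, ← Finset.prod_mul_distrib]
    exact Finset.prod_congr rfl fun i _ => mul_pow _ _ _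
  rw [h2]
  ring

theorem dehQ_ne {n d : ℕ} (i : Fin (n + 1)) (f : MvPolynomial (Fin (n + 1)) ℚ)
    (hf : f.IsHomogeneous d) (hf0 : f ≠ 0) : dehQ i f ≠ 0 := by
  intro h0
  apply hf0
  have h1 : f * X i = 0 := by
    refine MvPolynomial.funext fun x => ?_
    rw [map_mul, eval_X, map_zero]
    by_cases hx : x i = 0
    · rw [hx, mul_zero]
    · have h2 := congrArg (eval fun k => (x i)⁻¹ * x (i.succAbove k)) h0
      rw [map_zero, dehQ, aeval_def, ← coe_eval₂Hom, ← RingHom.comp_apply] at h2
      have h3 : ((eval fun k => (x i)⁻¹ * x (i.succAbove k)).comp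
          (eval₂Hom (algebraMap ℚ (MvPolynomial (Fin n) ℚ))
            (Fin.insertNth i (1 : MvPolynomial (Fin n) ℚ) X))) =
          eval fun k => (x i)⁻¹ * x k := by
        apply MvPolynomial.ringHom_ext
        · intro a
          simp
        · intro k
          rw [RingHom.comp_apply, eval₂Hom_X', eval_X]
          rcases Fin.eq_self_or_eq_succAbove i k with rfl | ⟨j, rfl⟩
          · rw [Fin.insertNth_apply_same, map_one, inv_mul_cancel₀ hx]
          · rw [Fin.insertNth_apply_succAbove, eval_X]
      rw [h3, eval_smul_hom f hf] at h2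
      rcases mul_eq_zero.1 h2 with h | h
      · exact absurd h (pow_ne_zero _ (inv_ne_zero hx))
      · rw [h, zero_mul]
  rcases mul_eq_zero.1 h1 with h | h
  · exact h
  · exact absurd h (X_ne_zero i)

variable {p : ℕ} [Fact p.Prime]

/-- the family of one polynomial in three variables -/
abbrev one3 (f : MvPolynomial (Fin 3) ℚ) : FamQ := ⟨Fin 3, Fin 1, fun _ => f⟩

/-- **The zeta functions of forms in three variables** with the root `-3/d`, on all polydiscs and for
every prime. -/
theorem form3_FR (f : MvPolynomial (Fin 3) ℚ) (hf0 : f ≠ 0) (d : ℕ) (hd : 0 < d)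
    (hf : f.IsHomogeneous d)
    (hroot : ∀ b : Polynomial ℂ, Pool.Agent.H628R4.TP.IsBFunction (map (algebraMap ℚ ℂ) f) b →
      b.eval (-(3 : ℂ) / d) = 0) (c : Fin 3 → ℚ_[p]) (hc : ∀ i, c i ≠ 0) :
    FR p (mR p (one3 f)) (FF (scl c ((one3 f).toP p))) := by
  classical
  have hM := isMlt_R (p := p)
  have hfor : Forced (one3 f).toC (-((2 : ℕ) + 1 : ℂ) / d) := by
    intro b hb
    have h1 := hroot b (Pool.Agent.Y229.isB_of_single _ b hb)
    rw [← h1]
    congr 2
    norm_num
  refine FR_cone ((one3 f).toP p) d hd (fun j => hf.map _) (mR p (one3 f)) _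
    (fun T hT => ?_) (fun i c' hc' => ?_) c hc
  · by_cases h1 : Forced (one3 f).toC ((rr p T : ℝ) : ℂ)
    · rw [mR_top h1]
      exact le_top
    · have h3 : ¬ T ^ d = (p : ℂ) ^ (2 + 1) := by
        intro h3
        apply h1
        rw [rr_cone 2 d hd T h3]
        exact hfor
      rw [mR_zero h1, if_neg h3, zero_add]
  · have h0 := (good_main hM ⟨Fin 2, Fin 1, fun _ => dehQ i f⟩
      (Good.plane 1 (fun _ => dehQ i f) ⟨0, dehQ_ne i f hf hf0⟩)).2 c' hc'
    have h1 := h0.mono (m' := mR p (one3 f)) fun T hT => ?_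
    · have h2 : FamQ.toP p ⟨Fin 2, Fin 1, fun _ => dehQ i f⟩ =
          fun j => dehK i ((one3 f).toP p j) := by
        funext j
        exact map_dehQ i f
      rw [← h2]
      exact h1
    · by_cases h1 : Forced (one3 f).toC ((rr p T : ℝ) : ℂ)
      · rw [mR_top h1]
        exact le_top
      · have h2 : ¬ Forced (FamQ.toC ⟨Fin 2, Fin 1, fun _ => dehQ i f⟩)
            ((rr p T : ℝ) : ℂ) := fun h2 => h1 fun b hb => by
          apply h2 b
          have h3 := functionalEq_deh i ((one3 f).toC) d
            (fun j => hf.map _) b hb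
          have h4 : FamQ.toC ⟨Fin 2, Fin 1, fun _ => dehQ i f⟩ =
              fun j => deh i ((one3 f).toC j) := by
            funext j
            exact map_dehC i f
          rw [h4]
          exact h3
        rw [mR_zero h2]
        exact bot_le

end Pool.Agent.KS6_80.TF
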